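import Pool.Agent.Q100.Sum68

/-!
# `[x_n] + [f_n]_⊥` closed does not imply `(f_n) ∼ (φ_n)`

The definitions are in `Pool/Agent/Q100/BasicDefs.lean`. The example lives in the Banach space
`ℓ₁ × C_b(ℝ)`, with `x_n = (e_n, 0)` and `f_n = (e_n*, δ_{q_n})`, where `(q_n)` enumerates the
rationals.
-/

set_option autoImplicit false

namespace Pool.Agent.Results.MP_68f07c_an.NotEquivalent

open Q100.Basic

universe w

/-- The negated form of Q1, over the real and over the complex field. -/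
theorem result : ∀ (𝕜 : Type w) [RCLike 𝕜],
    ∃ (E : Type w) (_ : NormedAddCommGroup E) (_ : NormedSpace 𝕜 E) (_ : CompleteSpace E)
      (x : ℕ → E) (f : ℕ → E →L[𝕜] 𝕜),
      Biorthogonal x f ∧ IsBasicSeq 𝕜 x ∧ IsBasicSeq 𝕜 f ∧ preann f = ⊥ ∧
      IsClosed ((cspan 𝕜 x ⊔ preann f : Submodule 𝕜 E) : Set E) ∧
      ¬ Equivalent 𝕜 f (fun n => (f n).comp (cspan 𝕜 x).subtypeL) := by
  intro 𝕜 _
  refine ⟨ESp 𝕜, inferInstance, inferInstance, inferInstance, xs 𝕜, fs 𝕜, biorth,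
    xs_ell1.isBasicSeq, fs_ell1.isBasicSeq, preann_eq_bot, ?_, ?_⟩
  · rw [preann_eq_bot, sup_bot_eq]
    exact Submodule.isClosed_topologicalClosure _
  · exact not_equivalent_of fs_ell1 (fun z hz s => sum_fs_le hz s)

end Pool.Agent.Results.MP_68f07c_an.NotEquivalent
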